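import Pool.Agent.H114R2.Design
import Pool.Agent.W851.Had.Tower

/-!
# Symmetric designs with Menon and Hadamard parameters, `u = 2 ^ s * q`, `s ≥ C ^ (1 + log* q)`

There is a constant `C` such that for all natural numbers `n`, `q > 0` and `s` with `q ≤ 2 ↑↑ n`
(the power tower `2 ^ 2 ^ ⋯ ^ 2` of `n` twos, equal to `1` for `n = 0`) and `C ^ (n + 1) ≤ s`, with
`u = 2 ^ s * q`, there are a symmetric `(4u², 2u² - u, u² - u)`-design (Menon parameters) and a
symmetric `(4u - 1, 2u - 1, u - 1)`-design (Hadamard parameters).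
-/

namespace Pool.Agent.Results.MP_3038d1_co.MenonHadamardLogStar

/-- `B` lists the `v` blocks of a symmetric `(v, k, l)`-design on the point set `Fin v`:
`k < v`, `0 < l`, every block has `k` points, every point is in `k` blocks, any two distinct points
are in exactly `l` common blocks (and any two distinct blocks have exactly `l` common points). -/
def IsSymmetricDesign (v k l : ℕ) (B : Fin v → Finset (Fin v)) : Prop :=
  k < v ∧ 0 < l ∧ (∀ i, (B i).card = k) ∧
  (∀ x, (Finset.univ.filter (fun i => x ∈ B i)).card = k) ∧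
  (∀ x y, x ≠ y → (Finset.univ.filter (fun i => x ∈ B i ∧ y ∈ B i)).card = l) ∧
  (∀ i j, i ≠ j → (B i ∩ B j).card = l)

theorem result : ∃ C : ℕ, ∀ n q s u : ℕ, 0 < q → q ≤ (fun x : ℕ => 2 ^ x)^[n] 1 →
    C ^ (n + 1) ≤ s → u = 2 ^ s * q →
    (∃ B, IsSymmetricDesign (4 * u ^ 2) (2 * u ^ 2 - u) (u ^ 2 - u) B) ∧
    (∃ B, IsSymmetricDesign (4 * u - 1) (2 * u - 1) (u - 1) B) := by
  obtain ⟨C, hC2, hC⟩ := Pool.Agent.W851.Had.main_had
  refine ⟨C, fun n q s u hq0 hq hs hu => ?_⟩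
  subst hu
  have h1 : Pool.Agent.H114R2.HasHad (2 ^ (s + 1) * q) := hC n q (s + 1) hq (by omega)
  have h2 := Pool.Agent.H114R2.hasHad_double h1
  have h3 : 2 ^ (s + 1) * q = 2 * (2 ^ s * q) := by ring
  have h4 : 2 * (2 ^ (s + 1) * q) = 4 * (2 ^ s * q) := by ring
  have hs1 : 1 ≤ s := le_trans (Nat.one_le_pow _ _ (by omega)) hs
  have h5 : 1 < 2 ^ s * q := by
    have : 2 ^ 1 ≤ 2 ^ s := Nat.pow_le_pow_right (by norm_num) hs1
    nlinarith
  rw [h4] at h2
  change Pool.Agent.H114R2.HasHad (2 ^ (s + 1) * q) at h1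
  rw [h3] at h1
  exact ⟨Pool.Agent.H114R2.menon_of_had h5 h1, Pool.Agent.H114R2.hadDesign_of_had h5 h2⟩

end Pool.Agent.Results.MP_3038d1_co.MenonHadamardLogStar
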