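import Mathlib
import Pool.Agent.W854.FA.Final

set_option autoImplicit false

/-!
# For almost all `v`, automorphisms of prime power order of symmetric designs on `v` points fix an
odd number of points
-/

namespace Pool.Agent.Results.MP_3038d1_co.OddFixedPoints

open Filter Topology

/-- The blocks `B i` (`i : Fin v`) form a symmetric `(v, k, lam)` design on the points `Fin v`
with `2 ≤ k ≤ v - 2`. -/
structure IsDesign (v k lam : ℕ) (B : Fin v → Finset (Fin v)) : Prop where
  two_le : 2 ≤ k
  le : k + 2 ≤ v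
  size : ∀ i, (B i).card = k
  pair : ∀ x y : Fin v, x ≠ y →
    (Finset.univ.filter (fun i => x ∈ B i ∧ y ∈ B i)).card = lam

/-- The permutation `σ` of the points maps every block to a block. -/
def IsAutomorphism {v : ℕ} (B : Fin v → Finset (Fin v)) (σ : Equiv.Perm (Fin v)) : Prop :=
  ∀ i, ∃ j, (B i).image σ = B j

/-- Let `Q` be given. The set of all `v` for which some symmetric `(v, k, lam)` design with
`2 ≤ k ≤ v - 2` has an automorphism `σ` whose order is a power of a prime `q`, where `q` divides
`v` or `q ≤ Q`, and which fixes an even number of points, has natural density zero. -/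
theorem result (Q : ℕ) :
    Tendsto (fun N : ℕ =>
      ({v : ℕ | v ≤ N ∧ ∃ (k lam : ℕ) (B : Fin v → Finset (Fin v)) (σ : Equiv.Perm (Fin v))
        (q a : ℕ), IsDesign v k lam B ∧ IsAutomorphism B σ ∧ q.Prime ∧ (q ∣ v ∨ q ≤ Q) ∧
          orderOf σ = q ^ a ∧
          Even (Finset.univ.filter (fun x : Fin v => σ x = x)).card}.ncard : ℝ) / (N : ℝ))
      atTop (𝓝 0) := by
  have h := Pool.Agent.W854.FA.small_tendsto (Pool.Agent.W854.FA.small_E Q)
  refine squeeze_zero (fun N => by positivity) (fun N => ?_) h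
  refine div_le_div_of_nonneg_right ?_ (Nat.cast_nonneg N)
  refine (Nat.cast_le (α := ℝ)).2 (Set.ncard_le_ncard ?_
    (Pool.Agent.H634R3.AA.fin_le N _))
  rintro v ⟨hv, k, lam, B, σ, q, a, hd, haut, hq, hqv, hord, heven⟩
  have h1 := hd.le
  exact ⟨hv, k, lam, B, σ, q, a, hd.two_le, hd.le, ⟨by omega, hd.size, hd.pair, haut, hq, hqv,
    by rw [← hord]; exact pow_orderOf_eq_one σ, heven⟩⟩

end Pool.Agent.Results.MP_3038d1_co.OddFixedPoints
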